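import Pool.Agent.Y660.CW.Core

/-!
# Bounds for the iterated transfer operators
-/

set_option autoImplicit false

open MeasureTheory ProbabilityTheory Filter Topology
open scoped ENNReal

namespace Pool.Agent.Y660.CW

open Pool.Agent.Results.MP_a2bed5_pr.ConvexWorkloads

variable {m : ℕ} {E : Type} [MeasurableSpace E]

/-- The iterates of `QD` on `g` cut off outside `[0, X]`. -/
noncomputable def fseq (κ : Kernel (St m E) (ℝ × ℝ × E)) (g : ℝ → ℝ≥0∞) (X : ℝ) :
    ℕ → St m E × ℝ → ℝ≥0∞
  | 0 => fun r => if 0 ≤ r.2 ∧ r.2 ≤ X then g r.2 else 0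
  | n + 1 => QD κ (fseq κ g X n)

lemma measurable_fseq (κ : Kernel (St m E) (ℝ × ℝ × E)) [IsSFiniteKernel κ] (g : ℝ → ℝ≥0∞)
    (hg : Measurable g) (X : ℝ) (n : ℕ) : Measurable (fseq κ g X n) := by
  induction n with
  | zero =>
    apply Measurable.ite _ (hg.comp measurable_snd) measurable_const
    exact (measurableSet_le measurable_const measurable_snd).inter
      (measurableSet_le measurable_snd measurable_const)
  | succ n ih => exact measurable_QD κ _ ih

lemma fseq_neg {μS : Measure ℝ} (κ : Kernel (St m E) (ℝ × ℝ × E)) (hκ : Queue μS κ)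
    (g : ℝ → ℝ≥0∞) (X : ℝ) (n : ℕ) (q : St m E) (y : ℝ) (hy : y < 0) :
    fseq κ g X n (q, y) = 0 := by
  induction n generalizing q y with
  | zero =>
    simp only [fseq]
    rw [if_neg (fun h => absurd h.1 (not_le.2 hy))]
  | succ n ih =>
    simp only [fseq, QD]
    rw [lintegral_congr_ae (g := fun _ => 0)]
    · simp
    · filter_upwards [hκ.nonneg q] with p hp
      rw [ih _ _ (by linarith [hp.2])]
      simp

lemma psi_bound {μS : Measure ℝ} [IsProbabilityMeasure μS] (κ : Kernel (St m E) (ℝ × ℝ × E))
    [IsMarkovKernel κ] (hκ : Queue μS κ) (g : ℝ → ℝ≥0∞) (hg : Monotone g) (X : ℝ) (n : ℕ)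
    (q : St m E) (hw : Monotone q.1) (y : ℝ) :
    ∑ i ∈ Finset.range n, fseq κ g X i (q, y) ≤ g y * (μS (Set.Ioi (y - q.1 0)))⁻¹ := by
  have hgm : Measurable g := hg.measurable
  induction n generalizing q y with
  | zero => simp
  | succ n ih =>
    rw [Finset.sum_range_succ']
    set a := μS (Set.Ioi (y - q.1 0)) with ha
    have e1 : ∑ i ∈ Finset.range n, fseq κ g X (i + 1) (q, y) ≤
        g y * (a⁻¹ * μS (Set.Iic (y - q.1 0))) := by
      have e2 : ∑ i ∈ Finset.range n, fseq κ g X (i + 1) (q, y) =
          ∫⁻ p, ∑ i ∈ Finset.range n, (if q.1 0 + p.1 ≤ y then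
            fseq κ g X i (nxt q p, y - p.2.1) else 0) ∂(κ q) := by
        rw [lintegral_finsetSum]
        · rfl
        · intro i _
          exact (measurable_QDint _ (measurable_fseq κ g hgm X i)).comp
            ((measurable_const : Measurable (fun _ : ℝ × ℝ × E => (q, y))).prodMk measurable_id)
      rw [e2]
      have e3 : ∫⁻ p, ∑ i ∈ Finset.range n, (if q.1 0 + p.1 ≤ y then
            fseq κ g X i (nxt q p, y - p.2.1) else 0) ∂(κ q) ≤
          ∫⁻ p, (if q.1 0 + p.1 ≤ y then g y * a⁻¹ else 0) ∂(κ q) := by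
        apply lintegral_mono_ae
        filter_upwards [hκ.nonneg q] with p hp
        by_cases h : q.1 0 + p.1 ≤ y
        · simp only [if_pos h]
          refine (ih (nxt q p) (kwStep_mono q.1 p.1 p.2.1) _).trans ?_
          apply mul_le_mul'
          · exact hg (by linarith [hp.2])
          · apply ENNReal.inv_le_inv.2
            apply measure_mono
            apply Set.Ioi_subset_Ioi
            have := kwStep_zero_ge q.1 hw p.1 p.2.1 hp.1
            simp only [nxt]
            linarith
        · simp [if_neg h]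
      refine e3.trans ?_
      rw [hκ.service q (fun s => if q.1 0 + s ≤ y then g y * a⁻¹ else 0)]
      · have : (fun s : ℝ => if q.1 0 + s ≤ y then g y * a⁻¹ else 0) =
            Set.indicator (Set.Iic (y - q.1 0)) (fun _ => g y * a⁻¹) := by
          funext s
          rw [Set.indicator_apply]
          have : (q.1 0 + s ≤ y) ↔ s ∈ Set.Iic (y - q.1 0) := by
            rw [Set.mem_Iic]
            constructor <;> intro h <;> linarith
          simp only [this]
        rw [this, lintegral_indicator measurableSet_Iic, setLIntegral_const, mul_assoc]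
      · apply Measurable.ite _ measurable_const measurable_const
        exact measurableSet_le (measurable_const.add measurable_id) measurable_const
    have e4 : fseq κ g X 0 (q, y) ≤ g y := by
      simp only [fseq]
      split_ifs <;> simp
    have e5 : a⁻¹ * μS (Set.Iic (y - q.1 0)) + 1 ≤ a⁻¹ := by
      rcases eq_or_ne a 0 with h0 | h0
      · rw [h0, ENNReal.inv_zero]
        exact le_top
      · have hatop : a ≠ ⊤ := measure_ne_top _ _
        have hsum : a + μS (Set.Iic (y - q.1 0)) = 1 := by
          have hc : Set.Iic (y - q.1 0) = (Set.Ioi (y - q.1 0))ᶜ := by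
            rw [Set.compl_Ioi]
          rw [ha, hc]
          exact prob_add_prob_compl measurableSet_Ioi
        calc a⁻¹ * μS (Set.Iic (y - q.1 0)) + 1
            = a⁻¹ * μS (Set.Iic (y - q.1 0)) + a⁻¹ * a := by
              rw [ENNReal.inv_mul_cancel h0 hatop]
          _ = a⁻¹ * (a + μS (Set.Iic (y - q.1 0))) := by ring
          _ ≤ a⁻¹ := by rw [hsum, mul_one]
    calc _ ≤ g y * (a⁻¹ * μS (Set.Iic (y - q.1 0))) + g y := add_le_add e1 e4
      _ = g y * (a⁻¹ * μS (Set.Iic (y - q.1 0)) + 1) := by ring
      _ ≤ g y * a⁻¹ := by gcongr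

lemma QP_bound {μS : Measure ℝ} [IsProbabilityMeasure μS] (κ : Kernel (St m E) (ℝ × ℝ × E))
    [IsMarkovKernel κ] (hκ : Queue μS κ) (g : ℝ → ℝ≥0∞) (hg : Monotone g) (X : ℝ) (n : ℕ)
    (q : St m E) (hw : Monotone q.1) (y : ℝ) :
    ∑ i ∈ Finset.range n, QP κ (fseq κ g X i) (q, y) ≤ g y := by
  have hgm : Measurable g := hg.measurable
  set a := μS (Set.Ioi (y - q.1 0)) with ha
  have e2 : ∑ i ∈ Finset.range n, QP κ (fseq κ g X i) (q, y) =
      ∫⁻ p, ∑ i ∈ Finset.range n, (if y < q.1 0 + p.1 then
        fseq κ g X i (nxt q p, y - p.2.1) else 0) ∂(κ q) := by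
    rw [lintegral_finsetSum]
    · rfl
    · intro i _
      exact (measurable_QPint _ (measurable_fseq κ g hgm X i)).comp
        ((measurable_const : Measurable (fun _ : ℝ × ℝ × E => (q, y))).prodMk measurable_id)
  rw [e2]
  have e3 : ∫⁻ p, ∑ i ∈ Finset.range n, (if y < q.1 0 + p.1 then
        fseq κ g X i (nxt q p, y - p.2.1) else 0) ∂(κ q) ≤
      ∫⁻ p, (if y < q.1 0 + p.1 then g y * a⁻¹ else 0) ∂(κ q) := by
    apply lintegral_mono_ae
    filter_upwards [hκ.nonneg q] with p hp
    by_cases h : y < q.1 0 + p.1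
    · simp only [if_pos h]
      refine (psi_bound κ hκ g hg X n (nxt q p) (kwStep_mono q.1 p.1 p.2.1) _).trans ?_
      apply mul_le_mul'
      · exact hg (by linarith [hp.2])
      · apply ENNReal.inv_le_inv.2
        apply measure_mono
        apply Set.Ioi_subset_Ioi
        have := kwStep_zero_ge q.1 hw p.1 p.2.1 hp.1
        simp only [nxt]
        linarith
    · simp [if_neg h]
  refine e3.trans ?_
  rw [hκ.service q (fun s => if y < q.1 0 + s then g y * a⁻¹ else 0)]
  · have : (fun s : ℝ => if y < q.1 0 + s then g y * a⁻¹ else 0) =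
        Set.indicator (Set.Ioi (y - q.1 0)) (fun _ => g y * a⁻¹) := by
      funext s
      rw [Set.indicator_apply]
      have : (y < q.1 0 + s) ↔ s ∈ Set.Ioi (y - q.1 0) := by
        rw [Set.mem_Ioi]
        constructor <;> intro h <;> linarith
      simp only [this]
    rw [this, lintegral_indicator measurableSet_Ioi, setLIntegral_const, mul_assoc]
    calc g y * (a⁻¹ * a) ≤ g y * 1 := by
          gcongr
          exact ENNReal.inv_mul_le_one a
      _ = g y := mul_one _
  · apply Measurable.ite _ measurable_const measurable_const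
    exact measurableSet_lt measurable_const (measurable_const.add measurable_id)

/-! ### The remainder -/

/-- probability that `0 ≤ y - (T₁ + … + Tₙ) ≤ X` -/
noncomputable def rseq (κ : Kernel (St m E) (ℝ × ℝ × E)) (X : ℝ) : ℕ → St m E × ℝ → ℝ≥0∞
  | 0 => fun r => if 0 ≤ r.2 ∧ r.2 ≤ X then 1 else 0
  | n + 1 => fun r => ∫⁻ p, rseq κ X n (nxt r.1 p, r.2 - p.2.1) ∂(κ r.1)

lemma measurable_rseq (κ : Kernel (St m E) (ℝ × ℝ × E)) [IsSFiniteKernel κ] (X : ℝ) (n : ℕ) :
    Measurable (rseq κ X n) := by
  induction n with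
  | zero =>
    apply Measurable.ite _ measurable_const measurable_const
    exact (measurableSet_le measurable_const measurable_snd).inter
      (measurableSet_le measurable_snd measurable_const)
  | succ n ih => exact measurable_int κ _ (measurable_transfer _ ih)

lemma measurable_early (κ : Kernel (St m E) (ℝ × ℝ × E)) [IsSFiniteKernel κ] (n : ℕ) :
    Measurable (early κ n) := by
  induction n with
  | zero =>
    apply Measurable.ite _ measurable_const measurable_const
    exact measurableSet_le measurable_const measurable_snd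
  | succ n ih => exact measurable_int κ _ (measurable_transfer _ ih)

lemma rseq_le_early (κ : Kernel (St m E) (ℝ × ℝ × E)) (X : ℝ) (n : ℕ) (r : St m E × ℝ) :
    rseq κ X n r ≤ early κ n r := by
  induction n generalizing r with
  | zero =>
    simp only [rseq, early]
    by_cases h : 0 ≤ r.2 ∧ r.2 ≤ X
    · rw [if_pos h, if_pos h.1]
    · rw [if_neg h]
      exact zero_le
  | succ n ih =>
    simp only [rseq, early]
    exact lintegral_mono fun p => ih _

lemma early_le_one (κ : Kernel (St m E) (ℝ × ℝ × E)) [IsMarkovKernel κ] (n : ℕ)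
    (r : St m E × ℝ) : early κ n r ≤ 1 := by
  induction n generalizing r with
  | zero =>
    simp only [early]
    split_ifs <;> simp
  | succ n ih =>
    simp only [early]
    calc ∫⁻ p, early κ n (nxt r.1 p, r.2 - p.2.1) ∂(κ r.1) ≤ ∫⁻ _p, 1 ∂(κ r.1) :=
          lintegral_mono fun p => ih _
      _ = 1 := by simp

lemma fseq_le_rseq (κ : Kernel (St m E) (ℝ × ℝ × E)) [IsSFiniteKernel κ] (g : ℝ → ℝ≥0∞)
    (hg : Monotone g) (X : ℝ) (n : ℕ) (r : St m E × ℝ) :
    fseq κ g X n r ≤ g X * rseq κ X n r := by
  induction n generalizing r with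
  | zero =>
    simp only [fseq, rseq]
    by_cases h : 0 ≤ r.2 ∧ r.2 ≤ X
    · rw [if_pos h, if_pos h, mul_one]
      exact hg h.2
    · rw [if_neg h]
      exact zero_le
  | succ n ih =>
    simp only [fseq, rseq, QD]
    rw [← lintegral_const_mul]
    · apply lintegral_mono
      intro p
      simp only
      split_ifs
      · exact ih _
      · exact zero_le
    · exact (measurable_transfer _ (measurable_rseq κ X n)).comp
        ((measurable_const : Measurable (fun _ : ℝ × ℝ × E => (r.1, r.2))).prodMk measurable_id)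

lemma lintegral_rseq (κ : Kernel (St m E) (ℝ × ℝ × E)) [IsMarkovKernel κ] (X : ℝ) (n : ℕ)
    (q : St m E) : ∫⁻ y, rseq κ X n (q, y) = ENNReal.ofReal X := by
  induction n generalizing q with
  | zero =>
    simp only [rseq]
    have : (fun y : ℝ => if 0 ≤ y ∧ y ≤ X then (1 : ℝ≥0∞) else 0) =
        Set.indicator (Set.Icc 0 X) (fun _ => 1) := by
      funext y
      rw [Set.indicator_apply]
      rfl
    rw [this, lintegral_indicator measurableSet_Icc, setLIntegral_const, Real.volume_Icc]
    simp
  | succ n ih =>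
    simp only [rseq]
    rw [lintegral_lintegral_swap]
    · have : ∀ p : ℝ × ℝ × E, ∫⁻ y, rseq κ X n (nxt q p, y - p.2.1) = ENNReal.ofReal X := by
        intro p
        rw [lintegral_sub_right_eq_self (fun y => rseq κ X n (nxt q p, y)) p.2.1, ih]
      simp_rw [this]
      simp
    · exact ((measurable_transfer _ (measurable_rseq κ X n)).comp
        (((measurable_const : Measurable (fun _ : ℝ × (ℝ × ℝ × E) => q)).prodMk
          measurable_fst).prodMk measurable_snd)).aemeasurable

/-- The remainder function. -/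
noncomputable def grem (κ : Kernel (St m E) (ℝ × ℝ × E)) (X : ℝ) (n : ℕ) (q : St m E) : ℝ≥0∞ :=
  ∫⁻ y, (if 0 ≤ y ∧ y < q.1 (Fin.last m) then rseq κ X n (q, y) else 0)

lemma measurable_grem (κ : Kernel (St m E) (ℝ × ℝ × E)) [IsSFiniteKernel κ] (X : ℝ) (n : ℕ) :
    Measurable (grem κ X n) := by
  have : Measurable (fun r : St m E × ℝ =>
      if 0 ≤ r.2 ∧ r.2 < r.1.1 (Fin.last m) then rseq κ X n (r.1, r.2) else 0) := by
    apply Measurable.ite _ (measurable_rseq κ X n) measurable_const
    exact (measurableSet_le measurable_const measurable_snd).inter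
      (measurableSet_lt measurable_snd
        ((measurable_pi_apply _).comp (measurable_fst.comp measurable_fst)))
  exact this.lintegral_prod_right'

lemma grem_le (κ : Kernel (St m E) (ℝ × ℝ × E)) [IsMarkovKernel κ] (X : ℝ) (n : ℕ)
    (q : St m E) : grem κ X n q ≤ ENNReal.ofReal X := by
  rw [← lintegral_rseq κ X n q]
  apply lintegral_mono
  intro y
  simp only
  split_ifs
  · exact le_rfl
  · exact zero_le

lemma grem_tendsto (κ : Kernel (St m E) (ℝ × ℝ × E)) [IsMarkovKernel κ] (X : ℝ) (q : St m E)
    (h : ∀ y : ℝ, Tendsto (fun n => early κ n (q, y)) atTop (𝓝 0)) :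
    Tendsto (fun n => grem κ X n q) atTop (𝓝 0) := by
  unfold grem
  have key := tendsto_lintegral_of_dominated_convergence (μ := (volume : Measure ℝ))
    (F := fun n y => if 0 ≤ y ∧ y < q.1 (Fin.last m) then rseq κ X n (q, y) else 0)
    (f := fun _ => 0) (Set.indicator (Set.Ico 0 (q.1 (Fin.last m))) fun _ => 1)
    (fun n => by
      apply Measurable.ite _ ((measurable_rseq κ X n).comp
        (measurable_const.prodMk measurable_id)) measurable_const
      exact (measurableSet_le measurable_const measurable_id).inter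
        (measurableSet_lt measurable_id measurable_const))
    (fun n => Eventually.of_forall fun y => by
      simp only [Set.indicator_apply, Set.mem_Ico]
      split_ifs with h1
      · exact (rseq_le_early κ X n _).trans (early_le_one κ n _)
      · exact le_rfl)
    (by
      rw [lintegral_indicator measurableSet_Ico, setLIntegral_const, Real.volume_Ico]
      exact ENNReal.mul_ne_top ENNReal.one_ne_top ENNReal.ofReal_ne_top)
    (Eventually.of_forall fun y => by
      by_cases h1 : 0 ≤ y ∧ y < q.1 (Fin.last m)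
      · simp only [if_pos h1]
        exact tendsto_of_tendsto_of_tendsto_of_le_of_le tendsto_const_nhds (h y)
          (fun _ => zero_le) (fun n => rseq_le_early κ X n _)
      · simp only [if_neg h1]
        exact tendsto_const_nhds)
  simpa using key

lemma int_grem_tendsto (κ : Kernel (St m E) (ℝ × ℝ × E)) [IsMarkovKernel κ] (X : ℝ)
    (π : Measure (St m E)) [IsProbabilityMeasure π]
    (h : ∀ᵐ q ∂π, ∀ y : ℝ, Tendsto (fun n => early κ n (q, y)) atTop (𝓝 0)) :
    Tendsto (fun n => ∫⁻ q, grem κ X n q ∂π) atTop (𝓝 0) := by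
  have := tendsto_lintegral_of_dominated_convergence (μ := π)
    (F := fun n q => grem κ X n q) (f := fun _ => 0) (fun _ => ENNReal.ofReal X)
    (fun n => measurable_grem κ X n) (fun n => Eventually.of_forall (grem_le κ X n))
    (by simp) (by filter_upwards [h] with q hq; exact grem_tendsto κ X q hq)
  simpa using this

/-! ### The main inequality -/

lemma area_iter {μS : Measure ℝ} {κ : Kernel (St m E) (ℝ × ℝ × E)} [IsMarkovKernel κ]
    {π : Measure (St m E)} (hπ : Stat κ π) (hκ : Queue μS κ) (j : ℕ) (hj : j + 1 < m + 1)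
    (g : ℝ → ℝ≥0∞) (hg : Measurable g) (X : ℝ) (n : ℕ) :
    area π (j + 1) (fseq κ g X 0) =
      ∑ i ∈ Finset.range n, area π j (QP κ (fseq κ g X i)) + area π (j + 1) (fseq κ g X n) := by
  induction n with
  | zero => simp
  | succ n ih =>
    rw [ih, Finset.sum_range_succ, add_assoc]
    congr 1
    exact step_identity hπ hκ j hj _ (measurable_fseq κ g hg X n)
      (fun q y hy => fseq_neg κ hκ g X n q y hy)

lemma area_sum_le {μS : Measure ℝ} [IsProbabilityMeasure μS]
    {κ : Kernel (St m E) (ℝ × ℝ × E)} [IsMarkovKernel κ]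
    {π : Measure (St m E)} (hπ : Stat κ π) (hκ : Queue μS κ) (j : ℕ)
    (g : ℝ → ℝ≥0∞) (hg : Monotone g) (X : ℝ) (n : ℕ) :
    ∑ i ∈ Finset.range n, area π j (QP κ (fseq κ g X i)) ≤
      area π j (fun r => if 0 ≤ r.2 then g r.2 else 0) := by
  have hgm : Measurable g := hg.measurable
  have mQ : ∀ i, Measurable (QP κ (fseq κ g X i)) :=
    fun i => measurable_QP κ _ (measurable_fseq κ g hgm X i)
  unfold area
  rw [← lintegral_finsetSum]
  swap
  · intro i _
    exact (measurable_cut j _ (mQ i)).lintegral_prod_right'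
  apply lintegral_mono_ae
  filter_upwards [hπ.ordered] with q hw
  rw [← lintegral_finsetSum]
  swap
  · intro i _
    exact (measurable_cut j _ (mQ i)).comp
      ((measurable_const : Measurable (fun _ : ℝ => q)).prodMk measurable_id)
  apply lintegral_mono
  intro y
  simp only
  by_cases h : above q.1 y = j
  · simp only [if_pos h]
    rcases lt_or_ge y 0 with hy | hy
    · rw [Finset.sum_eq_zero]
      · exact zero_le
      · intro i _
        unfold QP
        rw [lintegral_congr_ae (g := fun _ => 0)]
        · simp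
        · filter_upwards [hκ.nonneg q] with p hp
          rw [fseq_neg κ hκ g X i _ _ (by linarith [hp.2])]
          simp
    · rw [if_pos hy]
      exact QP_bound κ hκ g hg X n q hw.1 y
  · simp [if_neg h]

lemma area_fseq_le {κ : Kernel (St m E) (ℝ × ℝ × E)} [IsMarkovKernel κ] {μS : Measure ℝ}
    {π : Measure (St m E)} (hπ : Stat κ π) (hκ : Queue μS κ) (j : ℕ)
    (g : ℝ → ℝ≥0∞) (hg : Monotone g) (X : ℝ) (n : ℕ) :
    area π (j + 1) (fseq κ g X n) ≤ g X * ∫⁻ q, grem κ X n q ∂π := by
  rw [← lintegral_const_mul _ (measurable_grem κ X n)]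
  unfold area grem
  apply lintegral_mono_ae
  filter_upwards [hπ.ordered] with q hw
  rw [← lintegral_const_mul]
  swap
  · apply Measurable.ite _ ((measurable_rseq κ X n).comp
      (measurable_const.prodMk measurable_id)) measurable_const
    exact (measurableSet_le measurable_const measurable_id).inter
      (measurableSet_lt measurable_id measurable_const)
  apply lintegral_mono
  intro y
  simp only
  by_cases h : above q.1 y = j + 1
  · rw [if_pos h]
    rcases lt_or_ge y 0 with hy | hy
    · rw [fseq_neg κ hκ g X n q y hy]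
      exact zero_le
    · have hlast : y < q.1 (Fin.last m) := by
        by_contra hcon
        push Not at hcon
        have : Finset.univ.filter (fun i => y < q.1 i) = ∅ := by
          ext i
          simp only [Finset.mem_filter, Finset.mem_univ, true_and, Finset.notMem_empty,
            iff_false, not_lt]
          exact (hw.1 (Fin.le_last i)).trans hcon
        unfold above at h
        rw [this] at h
        simp at h
      rw [if_pos ⟨hy, hlast⟩]
      exact fseq_le_rseq κ g hg X n (q, y)
  · rw [if_neg h]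
    exact zero_le

lemma area_le {μS : Measure ℝ} [IsProbabilityMeasure μS]
    {κ : Kernel (St m E) (ℝ × ℝ × E)} [IsMarkovKernel κ]
    {π : Measure (St m E)} (hπ : Stat κ π) (hκ : Queue μS κ)
    (harr : ∀ᵐ q ∂π, ∀ y : ℝ, Tendsto (fun n => early κ n (q, y)) atTop (𝓝 0))
    (j : ℕ) (hj : j + 1 < m + 1) (g : ℝ → ℝ≥0∞) (hg : Monotone g) (X : ℝ) (hX : g X ≠ ⊤) :
    area π (j + 1) (fseq κ g X 0) ≤ area π j (fun r => if 0 ≤ r.2 then g r.2 else 0) := by
  have := hπ.prob
  have h1 : ∀ n, area π (j + 1) (fseq κ g X 0) ≤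
      area π j (fun r => if 0 ≤ r.2 then g r.2 else 0) + g X * ∫⁻ q, grem κ X n q ∂π := by
    intro n
    rw [area_iter hπ hκ j hj g hg.measurable X n]
    exact add_le_add (area_sum_le hπ hκ j g hg X n) (area_fseq_le hπ hκ j g hg X n)
  have h2 : Tendsto (fun n => area π j (fun r => if 0 ≤ r.2 then g r.2 else 0) +
      g X * ∫⁻ q, grem κ X n q ∂π) atTop
      (𝓝 (area π j (fun r => if 0 ≤ r.2 then g r.2 else 0) + g X * 0)) :=
    tendsto_const_nhds.add
      (ENNReal.Tendsto.const_mul (int_grem_tendsto κ X π harr) (Or.inr hX))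
  rw [mul_zero, add_zero] at h2
  exact ge_of_tendsto' h2 h1

lemma area_mono {μS : Measure ℝ} [IsProbabilityMeasure μS]
    {κ : Kernel (St m E) (ℝ × ℝ × E)} [IsMarkovKernel κ]
    {π : Measure (St m E)} (hπ : Stat κ π) (hκ : Queue μS κ)
    (harr : ∀ᵐ q ∂π, ∀ y : ℝ, Tendsto (fun n => early κ n (q, y)) atTop (𝓝 0))
    (j : ℕ) (hj : j + 1 < m + 1) (g : ℝ → ℝ≥0∞) (hg : Monotone g) (hX : ∀ X, g X ≠ ⊤) :
    area π (j + 1) (fun r => if 0 ≤ r.2 then g r.2 else 0) ≤
      area π j (fun r => if 0 ≤ r.2 then g r.2 else 0) := by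
  have hgm : Measurable g := hg.measurable
  have h1 : area π (j + 1) (fun r => if 0 ≤ r.2 then g r.2 else 0) =
      ⨆ n : ℕ, area π (j + 1) (fseq κ g n 0) := by
    unfold area
    have mf : ∀ n : ℕ, Measurable (fun r : St m E × ℝ =>
        if above r.1.1 r.2 = j + 1 then fseq κ g n 0 r else 0) :=
      fun n => measurable_cut (j + 1) _ (measurable_fseq κ g hgm n 0)
    have mono : ∀ q : St m E, ∀ a b : ℕ, a ≤ b → ∀ y : ℝ,
        (if above q.1 y = j + 1 then fseq κ g a 0 (q, y) else 0) ≤
        (if above q.1 y = j + 1 then fseq κ g b 0 (q, y) else 0) := by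
      intro q a b hab y
      split_ifs
      · simp only [fseq]
        have hab' : (a : ℝ) ≤ b := by exact_mod_cast hab
        by_cases h : 0 ≤ y ∧ y ≤ (a : ℝ)
        · rw [if_pos h, if_pos ⟨h.1, h.2.trans hab'⟩]
        · rw [if_neg h]
          exact zero_le
      · exact le_rfl
    rw [← lintegral_iSup]
    · apply lintegral_congr
      intro q
      rw [← lintegral_iSup]
      · apply lintegral_congr
        intro y
        by_cases h : above q.1 y = j + 1
        · simp only [if_pos h, fseq]
          by_cases hy : 0 ≤ y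
          · rw [if_pos hy]
            apply le_antisymm
            · obtain ⟨n, hn⟩ := exists_nat_ge y
              refine le_iSup_of_le n ?_
              rw [if_pos ⟨hy, hn⟩]
            · apply iSup_le
              intro n
              split_ifs <;> simp
          · rw [if_neg hy]
            symm
            rw [ENNReal.iSup_eq_zero]
            intro n
            rw [if_neg (fun h => hy h.1)]
        · simp [if_neg h]
      · intro n
        exact (mf n).comp ((measurable_const : Measurable (fun _ : ℝ => q)).prodMk measurable_id)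
      · intro a b hab y
        exact mono q a b hab y
    · intro n
      exact (mf n).lintegral_prod_right'
    · intro a b hab q
      apply lintegral_mono
      intro y
      exact mono q a b hab y
  rw [h1]
  exact iSup_le (fun n => area_le hπ hκ harr j hj g hg n (hX n))

/-- The main inequality in integrated form. -/
lemma gap_le {μS : Measure ℝ} [IsProbabilityMeasure μS]
    {κ : Kernel (St m E) (ℝ × ℝ × E)} [IsMarkovKernel κ]
    {π : Measure (St m E)} (hπ : Stat κ π) (hκ : Queue μS κ)
    (harr : ∀ᵐ q ∂π, ∀ y : ℝ, Tendsto (fun n => early κ n (q, y)) atTop (𝓝 0))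
    (g : ℝ → ℝ≥0∞) (hg : Monotone g) (hX : ∀ X, g X ≠ ⊤) (i : ℕ) (hi : i + 2 < m + 1) :
    ∫⁻ q, (∫⁻ y in Set.Ico (q.1 ⟨i, by omega⟩) (q.1 ⟨i + 1, by omega⟩), g y) ∂π ≤
      ∫⁻ q, (∫⁻ y in Set.Ico (q.1 ⟨i + 1, by omega⟩) (q.1 ⟨i + 2, hi⟩), g y) ∂π := by
  have key : ∀ (l : ℕ) (hl : l + 1 < m + 1),
      area π (m - l) (fun r => if 0 ≤ r.2 then g r.2 else 0) =
        ∫⁻ q, (∫⁻ y in Set.Ico (q.1 ⟨l, by omega⟩) (q.1 ⟨l + 1, hl⟩), g y) ∂π := by
    intro l hl
    unfold area
    apply lintegral_congr_ae
    filter_upwards [hπ.ordered] with q hw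
    have : (fun y : ℝ => if above q.1 y = m - l then (if 0 ≤ y then g y else 0) else 0) =
        Set.indicator (Set.Ico (q.1 ⟨l, by omega⟩) (q.1 ⟨l + 1, hl⟩)) g := by
      funext y
      rw [Set.indicator_apply]
      have hiff := above_eq_iff q.1 hw.1 y l hl
      by_cases h : above q.1 y = m - l
      · have h' := hiff.1 h
        have hy : 0 ≤ y := (hw.2 _).trans h'.1
        rw [if_pos h, if_pos hy, if_pos (Set.mem_Ico.2 h')]
      · rw [if_neg h, if_neg (fun h' => h (hiff.2 (Set.mem_Ico.1 h')))]
    rw [this, lintegral_indicator measurableSet_Ico]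
  rw [← key i (by omega), ← key (i + 1) (by omega)]
  have h := area_mono hπ hκ harr (m - (i + 1)) (by omega) g hg hX
  have e : m - (i + 1) + 1 = m - i := by omega
  rwa [e] at h

end Pool.Agent.Y660.CW
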