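import Mathlib
import Pool.Agent.Results.MP_a2bed5_pr.ConvexWorkloads

/-!
# Convex functionals of the workload vector, arrivals which depend on the history

Library for `MP_a2bed5_pr.ConvexFunctions`. The recursion and the combinatorics of the ordered
workload vector are those of the starting file `MP_a2bed5_pr.ConvexWorkloads`.
-/

set_option autoImplicit false

open MeasureTheory ProbabilityTheory Filter Topology
open scoped ENNReal

namespace Pool.Agent.Y660.CW

open Pool.Agent.Results.MP_a2bed5_pr.ConvexWorkloads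

variable {m : ℕ} {E : Type} [MeasurableSpace E]

/-- state: ordered workloads seen by a customer, and the environment (history) -/
abbrev St (m : ℕ) (E : Type) : Type := (Fin (m + 1) → ℝ) × E

/-- the state seen by the next customer -/
noncomputable def nxt (q : St m E) (p : ℝ × ℝ × E) : St m E := (kwStep q.1 p.1 p.2.1, p.2.2)

lemma measurable_nxt : Measurable (fun r : St m E × (ℝ × ℝ × E) => nxt r.1 r.2) := by
  unfold nxt
  apply Measurable.prodMk
  · exact measurable_kwStep.comp ((measurable_fst.comp measurable_fst).prodMk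
      ((measurable_fst.comp measurable_snd).prodMk
        (measurable_fst.comp (measurable_snd.comp measurable_snd))))
  · exact measurable_snd.comp (measurable_snd.comp measurable_snd)

/-- stationary joint law of workload vector and environment -/
structure Stat (κ : Kernel (St m E) (ℝ × ℝ × E)) (π : Measure (St m E)) : Prop where
  prob : IsProbabilityMeasure π
  ordered : ∀ᵐ q ∂π, Monotone q.1 ∧ ∀ i, 0 ≤ q.1 i
  invariant : ∀ g : St m E → ℝ≥0∞, Measurable g →
    ∫⁻ q, g q ∂π = ∫⁻ q, ∫⁻ p, g (nxt q p) ∂(κ q) ∂π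

/-- the service times have the law `μS`, whatever happened before -/
structure Queue (μS : Measure ℝ) (κ : Kernel (St m E) (ℝ × ℝ × E)) : Prop where
  service : ∀ (q : St m E) (g : ℝ → ℝ≥0∞), Measurable g → ∫⁻ p, g p.1 ∂(κ q) = ∫⁻ s, g s ∂μS
  nonneg : ∀ q : St m E, ∀ᵐ p ∂(κ q), 0 ≤ p.1 ∧ 0 ≤ p.2.1

/-- probability that the next `n` interarrival times sum to at most `y` -/
noncomputable def early (κ : Kernel (St m E) (ℝ × ℝ × E)) : ℕ → St m E × ℝ → ℝ≥0∞
  | 0 => fun r => if 0 ≤ r.2 then 1 else 0
  | n + 1 => fun r => ∫⁻ p, early κ n (nxt r.1 p, r.2 - p.2.1) ∂(κ r.1)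

/-- transfer operators -/
noncomputable def QD (κ : Kernel (St m E) (ℝ × ℝ × E)) (f : St m E × ℝ → ℝ≥0∞)
    (r : St m E × ℝ) : ℝ≥0∞ :=
  ∫⁻ p, (if r.1.1 0 + p.1 ≤ r.2 then f (nxt r.1 p, r.2 - p.2.1) else 0) ∂(κ r.1)

noncomputable def QP (κ : Kernel (St m E) (ℝ × ℝ × E)) (f : St m E × ℝ → ℝ≥0∞)
    (r : St m E × ℝ) : ℝ≥0∞ :=
  ∫⁻ p, (if r.2 < r.1.1 0 + p.1 then f (nxt r.1 p, r.2 - p.2.1) else 0) ∂(κ r.1)

lemma measurable_transfer (f : St m E × ℝ → ℝ≥0∞) (hf : Measurable f) :
    Measurable (fun r : (St m E × ℝ) × (ℝ × ℝ × E) => f (nxt r.1.1 r.2, r.1.2 - r.2.2.1)) := by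
  apply hf.comp
  apply Measurable.prodMk
  · exact measurable_nxt.comp ((measurable_fst.comp measurable_fst).prodMk measurable_snd)
  · exact (measurable_snd.comp measurable_fst).sub
      (measurable_fst.comp (measurable_snd.comp measurable_snd))

lemma measurable_head : Measurable (fun r : (St m E × ℝ) × (ℝ × ℝ × E) => r.1.1.1 0 + r.2.1) :=
  ((measurable_pi_apply 0).comp (measurable_fst.comp (measurable_fst.comp measurable_fst))).add
    (measurable_fst.comp measurable_snd)

lemma measurable_QDint (f : St m E × ℝ → ℝ≥0∞) (hf : Measurable f) :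
    Measurable (fun r : (St m E × ℝ) × (ℝ × ℝ × E) =>
      if r.1.1.1 0 + r.2.1 ≤ r.1.2 then f (nxt r.1.1 r.2, r.1.2 - r.2.2.1) else 0) :=
  Measurable.ite (measurableSet_le measurable_head (measurable_snd.comp measurable_fst))
    (measurable_transfer f hf) measurable_const

lemma measurable_QPint (f : St m E × ℝ → ℝ≥0∞) (hf : Measurable f) :
    Measurable (fun r : (St m E × ℝ) × (ℝ × ℝ × E) =>
      if r.1.2 < r.1.1.1 0 + r.2.1 then f (nxt r.1.1 r.2, r.1.2 - r.2.2.1) else 0) :=
  Measurable.ite (measurableSet_lt (measurable_snd.comp measurable_fst) measurable_head)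
    (measurable_transfer f hf) measurable_const

lemma measurable_int (κ : Kernel (St m E) (ℝ × ℝ × E)) [IsSFiniteKernel κ]
    (F : (St m E × ℝ) × (ℝ × ℝ × E) → ℝ≥0∞) (hF : Measurable F) :
    Measurable (fun r : St m E × ℝ => ∫⁻ p, F (r, p) ∂(κ r.1)) := by
  have h := Measurable.lintegral_kernel_prod_right' (κ := κ.comap Prod.fst measurable_fst)
    (α := St m E × ℝ) hF
  simpa [Kernel.comap_apply] using h

lemma measurable_QD (κ : Kernel (St m E) (ℝ × ℝ × E)) [IsSFiniteKernel κ]
    (f : St m E × ℝ → ℝ≥0∞) (hf : Measurable f) : Measurable (QD κ f) :=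
  measurable_int κ _ (measurable_QDint f hf)

lemma measurable_QP (κ : Kernel (St m E) (ℝ × ℝ × E)) [IsSFiniteKernel κ]
    (f : St m E × ℝ → ℝ≥0∞) (hf : Measurable f) : Measurable (QP κ f) :=
  measurable_int κ _ (measurable_QPint f hf)

lemma measurable_ab : Measurable (fun r : St m E × ℝ => above r.1.1 r.2) :=
  measurable_above.comp ((measurable_fst.comp measurable_fst).prodMk measurable_snd)

lemma measurable_cut (j : ℕ) (F : St m E × ℝ → ℝ≥0∞) (hF : Measurable F) :
    Measurable (fun r : St m E × ℝ => if above r.1.1 r.2 = j then F r else 0) :=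
  Measurable.ite (measurable_ab (measurableSet_singleton j)) hF measurable_const

/-- Integral of `F` over the pairs (state, `y`) with exactly `j` workloads above `y`. -/
noncomputable def area (π : Measure (St m E)) (j : ℕ) (F : St m E × ℝ → ℝ≥0∞) : ℝ≥0∞ :=
  ∫⁻ q, ∫⁻ y, (if above q.1 y = j then F (q, y) else 0) ∂volume ∂π

/-- One step of the backward decomposition. -/
lemma step_identity {μS : Measure ℝ} {κ : Kernel (St m E) (ℝ × ℝ × E)} [IsMarkovKernel κ]
    {π : Measure (St m E)} (hπ : Stat κ π) (hκ : Queue μS κ) (j : ℕ) (hj : j + 1 < m + 1)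
    (f : St m E × ℝ → ℝ≥0∞) (hf : Measurable f) (hf0 : ∀ q y, y < 0 → f (q, y) = 0) :
    area π (j + 1) f = area π j (QP κ f) + area π (j + 1) (QD κ f) := by
  have := hπ.prob
  unfold area
  have e1 := hπ.invariant
    (fun q => ∫⁻ x, (if above q.1 x = j + 1 then f (q, x) else 0) ∂volume)
    ((measurable_cut (j + 1) f hf).lintegral_prod_right')
  rw [e1, ← lintegral_add_left]
  swap
  · exact (measurable_cut j (QP κ f) (measurable_QP κ f hf)).lintegral_prod_right'
  apply lintegral_congr_ae
  filter_upwards [hπ.ordered] with q hw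
  -- translate in the inner integral
  have e2 : ∀ p : ℝ × ℝ × E, ∫⁻ x, (if above (nxt q p).1 x = j + 1 then
      f (nxt q p, x) else 0) ∂volume =
      ∫⁻ y, (if above (kwStep q.1 p.1 p.2.1) (y - p.2.1) = j + 1 then
      f (nxt q p, y - p.2.1) else 0) ∂volume := by
    intro p
    exact (lintegral_sub_right_eq_self (fun x => (if above (nxt q p).1 x = j + 1 then
      f (nxt q p, x) else 0)) p.2.1).symm
  simp_rw [e2]
  -- split the indicator
  have e3 : ∀ p : ℝ × ℝ × E, 0 ≤ p.1 → ∀ y : ℝ,
      (if above (kwStep q.1 p.1 p.2.1) (y - p.2.1) = j + 1 then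
        f (nxt q p, y - p.2.1) else 0) =
      (if above q.1 y = j then (if y < q.1 0 + p.1 then f (nxt q p, y - p.2.1) else 0) else 0) +
      (if above q.1 y = j + 1 then (if q.1 0 + p.1 ≤ y then f (nxt q p, y - p.2.1) else 0)
        else 0) := by
    intro p hp y
    rcases lt_or_ge (y - p.2.1) 0 with hy | hy
    · rw [hf0 _ _ hy]
      simp
    · rw [above_kwStep q.1 p.1 p.2.1 (y - p.2.1) hy hp]
      have : y - p.2.1 + p.2.1 = y := by ring
      rw [this]
      by_cases a : above q.1 y = j
      · have w0 : q.1 0 ≤ y := le_of_above_lt q.1 hw.1 y (by omega)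
        rw [if_pos a]
        have c : above q.1 y ≠ j + 1 := by omega
        rw [if_neg c, add_zero]
        by_cases b : y < q.1 0 + p.1
        · have hy1 : q.1 0 ≤ y ∧ y < q.1 0 + p.1 := ⟨w0, b⟩
          rw [if_pos hy1, if_pos b, if_pos (by omega)]
        · have hn : ¬ (q.1 0 ≤ y ∧ y < q.1 0 + p.1) := fun h => b h.2
          rw [if_neg hn, if_neg b, if_neg (by omega)]
      · rw [if_neg a, zero_add]
        by_cases c : above q.1 y = j + 1
        · have w0 : q.1 0 ≤ y := le_of_above_lt q.1 hw.1 y (by omega)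
          rw [if_pos c]
          by_cases b : q.1 0 + p.1 ≤ y
          · have hn : ¬ (q.1 0 ≤ y ∧ y < q.1 0 + p.1) := fun h => absurd h.2 (not_lt.2 b)
            rw [if_neg hn, if_pos b, if_pos (by omega)]
          · push Not at b
            have hy1 : q.1 0 ≤ y ∧ y < q.1 0 + p.1 := ⟨w0, b⟩
            rw [if_pos hy1, if_neg (not_le.2 b), if_neg (by omega)]
        · rw [if_neg c]
          split_ifs with h1 h2 <;> first | rfl | omega
  have e4 : ∫⁻ p, ∫⁻ y, (if above (kwStep q.1 p.1 p.2.1) (y - p.2.1) = j + 1 then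
      f (nxt q p, y - p.2.1) else 0) ∂volume ∂(κ q) =
      ∫⁻ p, ∫⁻ y, ((if above q.1 y = j then
        (if y < q.1 0 + p.1 then f (nxt q p, y - p.2.1) else 0) else 0) +
      (if above q.1 y = j + 1 then (if q.1 0 + p.1 ≤ y then f (nxt q p, y - p.2.1) else 0)
        else 0)) ∂volume ∂(κ q) := by
    apply lintegral_congr_ae
    filter_upwards [hκ.nonneg q] with p hp
    apply lintegral_congr
    intro y
    exact e3 p hp.1 y
  rw [e4]
  have mP : Measurable (fun r : (ℝ × ℝ × E) × ℝ => (if above q.1 r.2 = j then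
        (if r.2 < q.1 0 + r.1.1 then f (nxt q r.1, r.2 - r.1.2.1) else 0) else 0)) := by
    apply Measurable.ite
    · exact (measurable_above.comp (measurable_const.prodMk measurable_snd))
        (measurableSet_singleton j)
    · exact (measurable_QPint f hf).comp
        (((measurable_const : Measurable (fun _ : (ℝ × ℝ × E) × ℝ => q)).prodMk
          measurable_snd).prodMk measurable_fst)
    · exact measurable_const
  have mD : Measurable (fun r : (ℝ × ℝ × E) × ℝ => (if above q.1 r.2 = j + 1 then
        (if q.1 0 + r.1.1 ≤ r.2 then f (nxt q r.1, r.2 - r.1.2.1) else 0) else 0)) := by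
    apply Measurable.ite
    · exact (measurable_above.comp (measurable_const.prodMk measurable_snd))
        (measurableSet_singleton (j + 1))
    · exact (measurable_QDint f hf).comp
        (((measurable_const : Measurable (fun _ : (ℝ × ℝ × E) × ℝ => q)).prodMk
          measurable_snd).prodMk measurable_fst)
    · exact measurable_const
  rw [lintegral_lintegral_swap (mP.add mD).aemeasurable]
  have e5 : ∀ y : ℝ, ∫⁻ p, ((if above q.1 y = j then
        (if y < q.1 0 + p.1 then f (nxt q p, y - p.2.1) else 0) else 0) +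
      (if above q.1 y = j + 1 then (if q.1 0 + p.1 ≤ y then f (nxt q p, y - p.2.1) else 0)
        else 0)) ∂(κ q) = (if above q.1 y = j then QP κ f (q, y) else 0) +
        (if above q.1 y = j + 1 then QD κ f (q, y) else 0) := by
    intro y
    rw [lintegral_add_left]
    · congr 1
      · split_ifs with h
        · rfl
        · simp
      · split_ifs with h
        · rfl
        · simp
    · exact mP.comp (measurable_id.prodMk measurable_const)
  simp_rw [e5]
  rw [lintegral_add_left]
  exact (measurable_cut j (QP κ f) (measurable_QP κ f hf)).comp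
    (measurable_const.prodMk measurable_id)

end Pool.Agent.Y660.CW
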