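import Pool.Agent.Y660.CW.Bd

/-!
# Convex functions of the workloads
-/

set_option autoImplicit false

open MeasureTheory ProbabilityTheory Filter Topology
open scoped ENNReal

namespace Pool.Agent.Y660.CW

open Pool.Agent.Results.MP_a2bed5_pr.ConvexWorkloads

/-! ### Convex functions as integrals of nondecreasing functions -/

lemma cont_Ici {G : ℝ → ℝ} (hc : ConvexOn ℝ (Set.Ici 0) G) (hm : MonotoneOn G (Set.Ici 0)) :
    ContinuousOn G (Set.Ici 0) := by
  intro x hx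
  rcases eq_or_lt_of_le (Set.mem_Ici.1 hx) with h0 | h0
  · subst h0
    have h1 : Tendsto (fun x : ℝ => (1 - x) * G 0 + x * G 1) (𝓝[Set.Ici 0] 0) (𝓝 (G 0)) := by
      have : Tendsto (fun x : ℝ => (1 - x) * G 0 + x * G 1) (𝓝 0)
          (𝓝 ((1 - 0) * G 0 + 0 * G 1)) := by
        apply Continuous.tendsto
        fun_prop
      simp only [sub_zero, one_mul, zero_mul, add_zero] at this
      exact this.mono_left nhdsWithin_le_nhds
    refine tendsto_of_tendsto_of_tendsto_of_le_of_le' (tendsto_const_nhds (x := G 0)) h1 ?_ ?_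
    · filter_upwards [self_mem_nhdsWithin] with x hx
      exact hm (Set.mem_Ici.2 le_rfl) hx hx
    · have h2 : ∀ᶠ x : ℝ in 𝓝[Set.Ici 0] 0, x < 1 :=
        nhdsWithin_le_nhds (Iio_mem_nhds zero_lt_one)
      filter_upwards [self_mem_nhdsWithin, h2] with x hx hx1
      have := hc.2 (Set.mem_Ici.2 (le_refl (0 : ℝ))) (Set.mem_Ici.2 (zero_le_one (α := ℝ)))
        (sub_nonneg.2 hx1.le) (Set.mem_Ici.1 hx) (by ring)
      simpa [smul_eq_mul] using this
  · have h1 := hc.continuousOn_interior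
    rw [interior_Ici] at h1
    exact ((h1 x h0).continuousAt (Ioi_mem_nhds h0)).continuousWithinAt

/-- the density: the right derivative on the positive half line, zero elsewhere -/
noncomputable def dens (G : ℝ → ℝ) (y : ℝ) : ℝ := if 0 < y then derivWithin G (Set.Ioi y) y else 0

lemma dens_nonneg {G : ℝ → ℝ} (hm : MonotoneOn G (Set.Ici 0)) (y : ℝ) : 0 ≤ dens G y := by
  unfold dens
  split_ifs with h
  · exact (hm.mono fun z hz => Set.mem_Ici.2 (h.le.trans (Set.mem_Ioi.1 hz).le)).derivWithin_nonneg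
  · exact le_rfl

lemma dens_mono {G : ℝ → ℝ} (hc : ConvexOn ℝ (Set.Ici 0) G) (hm : MonotoneOn G (Set.Ici 0)) :
    Monotone (dens G) := by
  intro x y hxy
  by_cases hx : 0 < x
  · have hy : 0 < y := hx.trans_le hxy
    have := hc.monotoneOn_rightDeriv
    rw [interior_Ici] at this
    unfold dens
    rw [if_pos hx, if_pos hy]
    exact this hx hy hxy
  · have : dens G x = 0 := by unfold dens; rw [if_neg hx]
    rw [this]
    exact dens_nonneg hm y

lemma ftc {G : ℝ → ℝ} (hc : ConvexOn ℝ (Set.Ici 0) G) (hm : MonotoneOn G (Set.Ici 0))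
    {a b : ℝ} (ha : 0 ≤ a) (hab : a ≤ b) :
    ∫⁻ y in Set.Ico a b, ENNReal.ofReal (dens G y) = ENNReal.ofReal (G b - G a) := by
  have hint : IntervalIntegrable (dens G) volume a b := (dens_mono hc hm).intervalIntegrable
  have h1 : ∫ y in a..b, dens G y = G b - G a := by
    apply intervalIntegral.integral_eq_sub_of_hasDeriv_right_of_le hab
    · exact (cont_Ici hc hm).mono fun z hz => Set.mem_Ici.2 (ha.trans hz.1)
    · intro x hx
      have hx0 : 0 < x := ha.trans_lt hx.1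
      unfold dens
      rw [if_pos hx0]
      apply hc.hasDerivWithinAt_rightDeriv_of_mem_interior
      rw [interior_Ici]
      exact hx0
    · exact hint
  rw [← h1, intervalIntegral.integral_of_le hab, ← integral_Ico_eq_integral_Ioc]
  symm
  apply ofReal_integral_eq_lintegral_ofReal
  · have := (intervalIntegrable_iff_integrableOn_Ioc_of_le hab).1 hint
    exact this.congr_set_ae Ico_ae_eq_Ioc
  · exact Eventually.of_forall (dens_nonneg hm)

variable {m : ℕ} {E : Type} [MeasurableSpace E]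

/-- the shifted function, nonnegative, monotone on the line and measurable -/
noncomputable def H (G : ℝ → ℝ) (x : ℝ) : ℝ≥0∞ := ENNReal.ofReal (G (max x 0) - G 0)

lemma measurable_H {G : ℝ → ℝ} (hm : MonotoneOn G (Set.Ici 0)) : Measurable (H G) := by
  apply Monotone.measurable
  intro x y hxy
  apply ENNReal.ofReal_le_ofReal
  have : G (max x 0) ≤ G (max y 0) :=
    hm (Set.mem_Ici.2 (le_max_right _ _)) (Set.mem_Ici.2 (le_max_right _ _))
      (max_le_max hxy le_rfl)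
  linarith

/-- convexity in the extended nonnegative numbers -/
lemma conv_ennreal {μS : Measure ℝ} [IsProbabilityMeasure μS]
    {κ : Kernel (St m E) (ℝ × ℝ × E)} [IsMarkovKernel κ]
    {π : Measure (St m E)} (hπ : Stat κ π) (hκ : Queue μS κ)
    (harr : ∀ᵐ q ∂π, ∀ y : ℝ, Tendsto (fun n => early κ n (q, y)) atTop (𝓝 0))
    {G : ℝ → ℝ} (hc : ConvexOn ℝ (Set.Ici 0) G) (hm : MonotoneOn G (Set.Ici 0))
    (i : ℕ) (hi : i + 2 < m + 1) :
    2 * ∫⁻ q, ENNReal.ofReal (G (q.1 ⟨i + 1, by omega⟩) - G 0) ∂π ≤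
      ∫⁻ q, ENNReal.ofReal (G (q.1 ⟨i, by omega⟩) - G 0) ∂π +
        ∫⁻ q, ENNReal.ofReal (G (q.1 ⟨i + 2, hi⟩) - G 0) ∂π := by
  have eH : ∀ l : Fin (m + 1), ∫⁻ q, ENNReal.ofReal (G (q.1 l) - G 0) ∂π =
      ∫⁻ q, H G (q.1 l) ∂π := by
    intro l
    apply lintegral_congr_ae
    filter_upwards [hπ.ordered] with q hq
    unfold H
    rw [max_eq_left (hq.2 l)]
  have mH : ∀ l : Fin (m + 1), Measurable (fun q : St m E => H G (q.1 l)) := fun l =>
    (measurable_H hm).comp ((measurable_pi_apply l).comp measurable_fst)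
  have split : ∀ a b : Fin (m + 1), a ≤ b →
      ∫⁻ q, H G (q.1 b) ∂π = ∫⁻ q, H G (q.1 a) ∂π +
        ∫⁻ q, (∫⁻ y in Set.Ico (q.1 a) (q.1 b), ENNReal.ofReal (dens G y)) ∂π := by
    intro a b hab
    rw [← lintegral_add_left (mH a)]
    apply lintegral_congr_ae
    filter_upwards [hπ.ordered] with q hq
    have h1 := hq.1 hab
    rw [ftc hc hm (hq.2 a) h1]
    unfold H
    rw [max_eq_left (hq.2 a), max_eq_left (hq.2 b)]
    have h2 : G 0 ≤ G (q.1 a) := hm (Set.mem_Ici.2 le_rfl) (Set.mem_Ici.2 (hq.2 a)) (hq.2 a)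
    have h3 : G (q.1 a) ≤ G (q.1 b) :=
      hm (Set.mem_Ici.2 (hq.2 a)) (Set.mem_Ici.2 (hq.2 b)) h1
    rw [← ENNReal.ofReal_add (by linarith) (by linarith)]
    congr 1
    ring
  have g := gap_le hπ hκ harr (fun y => ENNReal.ofReal (dens G y))
    (fun x y hxy => ENNReal.ofReal_le_ofReal (dens_mono hc hm hxy))
    (fun X => ENNReal.ofReal_ne_top) i hi
  have s1 := split ⟨i, by omega⟩ ⟨i + 1, by omega⟩ (by simp)
  have s2 := split ⟨i + 1, by omega⟩ ⟨i + 2, hi⟩ (by simp)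
  rw [eH, eH, eH]
  calc 2 * ∫⁻ q, H G (q.1 ⟨i + 1, by omega⟩) ∂π
      = ∫⁻ q, H G (q.1 ⟨i + 1, by omega⟩) ∂π +
        (∫⁻ q, H G (q.1 ⟨i, by omega⟩) ∂π +
          ∫⁻ q, (∫⁻ y in Set.Ico (q.1 ⟨i, by omega⟩) (q.1 ⟨i + 1, by omega⟩),
            ENNReal.ofReal (dens G y)) ∂π) := by
        rw [two_mul, ← s1]
    _ = ∫⁻ q, H G (q.1 ⟨i, by omega⟩) ∂π +
        (∫⁻ q, H G (q.1 ⟨i + 1, by omega⟩) ∂π +
          ∫⁻ q, (∫⁻ y in Set.Ico (q.1 ⟨i, by omega⟩) (q.1 ⟨i + 1, by omega⟩),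
            ENNReal.ofReal (dens G y)) ∂π) := by ring
    _ ≤ ∫⁻ q, H G (q.1 ⟨i, by omega⟩) ∂π +
        (∫⁻ q, H G (q.1 ⟨i + 1, by omega⟩) ∂π +
          ∫⁻ q, (∫⁻ y in Set.Ico (q.1 ⟨i + 1, by omega⟩) (q.1 ⟨i + 2, hi⟩),
            ENNReal.ofReal (dens G y)) ∂π) := by gcongr
    _ = _ := by rw [← s2]

/-- convexity of the real means -/
lemma conv_real {μS : Measure ℝ} [IsProbabilityMeasure μS]
    {κ : Kernel (St m E) (ℝ × ℝ × E)} [IsMarkovKernel κ]
    {π : Measure (St m E)} (hπ : Stat κ π) (hκ : Queue μS κ)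
    (harr : ∀ᵐ q ∂π, ∀ y : ℝ, Tendsto (fun n => early κ n (q, y)) atTop (𝓝 0))
    {G : ℝ → ℝ} (hc : ConvexOn ℝ (Set.Ici 0) G) (hm : MonotoneOn G (Set.Ici 0))
    (hint : ∀ i : Fin (m + 1), Integrable (fun q : St m E => G (q.1 i)) π)
    (i : ℕ) (hi : i + 2 < m + 1) :
    2 * ∫ q, G (q.1 ⟨i + 1, by omega⟩) ∂π ≤
      ∫ q, G (q.1 ⟨i, by omega⟩) ∂π + ∫ q, G (q.1 ⟨i + 2, hi⟩) ∂π := by
  have := hπ.prob
  have h := conv_ennreal hπ hκ harr hc hm i hi
  have hi0 : ∀ l : Fin (m + 1), Integrable (fun q : St m E => G (q.1 l) - G 0) π :=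
    fun l => (hint l).sub (integrable_const _)
  have hnn : ∀ l : Fin (m + 1), 0 ≤ᵐ[π] fun q : St m E => G (q.1 l) - G 0 := by
    intro l
    filter_upwards [hπ.ordered] with q hq
    have : G 0 ≤ G (q.1 l) := hm (Set.mem_Ici.2 le_rfl) (Set.mem_Ici.2 (hq.2 l)) (hq.2 l)
    simp only [Pi.zero_apply]
    linarith
  have conv : ∀ l : Fin (m + 1), ∫⁻ q, ENNReal.ofReal (G (q.1 l) - G 0) ∂π =
      ENNReal.ofReal (∫ q, (G (q.1 l) - G 0) ∂π) := fun l =>
    (ofReal_integral_eq_lintegral_ofReal (hi0 l) (hnn l)).symm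
  have nn : ∀ l : Fin (m + 1), 0 ≤ ∫ q, (G (q.1 l) - G 0) ∂π := fun l =>
    integral_nonneg_of_ae (hnn l)
  rw [conv, conv, conv, ← ENNReal.ofReal_add (nn _) (nn _)] at h
  have h2 : (2 : ℝ≥0∞) = ENNReal.ofReal 2 := by simp
  rw [h2, ← ENNReal.ofReal_mul (by norm_num)] at h
  have h3 := (ENNReal.ofReal_le_ofReal_iff (add_nonneg (nn _) (nn _))).1 h
  have h4 : ∀ l : Fin (m + 1), ∫ q, (G (q.1 l) - G 0) ∂π = ∫ q, G (q.1 l) ∂π - G 0 := by
    intro l
    rw [integral_sub (hint l) (integrable_const _)]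
    simp
  rw [h4, h4, h4] at h3
  linarith

/-! ### Independent pairs -/

/-- the kernel of a queue with i.i.d. pairs (service time, interarrival time) of law `ν` -/
noncomputable def iidK (m : ℕ) (ν : Measure (ℝ × ℝ)) : Kernel (St m Unit) (ℝ × ℝ × Unit) :=
  Kernel.const _ (ν.map fun p => (p.1, p.2, ()))

lemma meas_pair : Measurable (fun p : ℝ × ℝ => ((p.1, p.2, ()) : ℝ × ℝ × Unit)) :=
  measurable_fst.prodMk (measurable_snd.prodMk measurable_const)

instance (m : ℕ) (ν : Measure (ℝ × ℝ)) [IsProbabilityMeasure ν] : IsMarkovKernel (iidK m ν) := by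
  unfold iidK
  have : IsProbabilityMeasure (ν.map fun p : ℝ × ℝ => ((p.1, p.2, ()) : ℝ × ℝ × Unit)) :=
    Measure.isProbabilityMeasure_map meas_pair.aemeasurable
  infer_instance

lemma lintegral_iidK (ν : Measure (ℝ × ℝ)) (q : St m Unit) (g : ℝ × ℝ × Unit → ℝ≥0∞)
    (hg : Measurable g) : ∫⁻ p, g p ∂(iidK m ν q) = ∫⁻ p, g (p.1, p.2, ()) ∂ν := by
  unfold iidK
  rw [Kernel.const_apply, lintegral_map hg meas_pair]

lemma queue_iid (ν : Measure (ℝ × ℝ)) (hν : ∀ᵐ p ∂ν, 0 ≤ p.1 ∧ 0 ≤ p.2) :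
    Queue (ν.map Prod.fst) (iidK m ν) := by
  constructor
  · intro q g hg
    rw [lintegral_iidK ν q (fun p => g p.1) (hg.comp measurable_fst),
      lintegral_map hg measurable_fst]
  · intro q
    unfold iidK
    rw [Kernel.const_apply, ae_map_iff meas_pair.aemeasurable]
    · exact hν
    · exact (measurableSet_le measurable_const measurable_fst).inter
        (measurableSet_le measurable_const (measurable_fst.comp measurable_snd))

/-- the Laplace transform at `1` of the interarrival time -/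
noncomputable def lapP (ν : Measure (ℝ × ℝ)) : ℝ≥0∞ := ∫⁻ p, ENNReal.ofReal (Real.exp (-p.2)) ∂ν

lemma lapP_lt_one (ν : Measure (ℝ × ℝ)) [IsProbabilityMeasure ν]
    (hν : ∀ᵐ p ∂ν, 0 ≤ p.1 ∧ 0 ≤ p.2) (h0 : ¬ ∀ᵐ p ∂ν, p.2 = 0) : lapP ν < 1 := by
  have h1 : ∫⁻ _p, (1 : ℝ≥0∞) ∂ν = 1 := by simp
  rw [← h1]
  unfold lapP
  apply lintegral_strict_mono_of_ae_le_of_frequently_ae_lt
  · exact aemeasurable_const
  · refine ne_top_of_le_ne_top ENNReal.one_ne_top ?_
    calc ∫⁻ p, ENNReal.ofReal (Real.exp (-p.2)) ∂ν ≤ ∫⁻ _p, 1 ∂ν := by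
          apply lintegral_mono_ae
          filter_upwards [hν] with p hp
          rw [← ENNReal.ofReal_one]
          exact ENNReal.ofReal_le_ofReal (Real.exp_le_one_iff.2 (by linarith [hp.2]))
      _ = 1 := h1
  · filter_upwards [hν] with p hp
    rw [← ENNReal.ofReal_one]
    exact ENNReal.ofReal_le_ofReal (Real.exp_le_one_iff.2 (by linarith [hp.2]))
  · intro h
    apply h0
    filter_upwards [h] with p hp
    push Not at hp
    rw [← ENNReal.ofReal_one] at hp
    have h2 := (ENNReal.ofReal_eq_ofReal_iff (Real.exp_pos _).le zero_le_one).1 hp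
    rw [Real.exp_eq_one_iff] at h2
    linarith

lemma early_le_lap (ν : Measure (ℝ × ℝ)) [IsProbabilityMeasure ν] (n : ℕ)
    (r : St m Unit × ℝ) :
    early (iidK m ν) n r ≤ ENNReal.ofReal (Real.exp r.2) * lapP ν ^ n := by
  induction n generalizing r with
  | zero =>
    simp only [early, pow_zero, mul_one]
    split_ifs with h
    · rw [← ENNReal.ofReal_one]
      exact ENNReal.ofReal_le_ofReal (Real.one_le_exp h)
    · exact zero_le
  | succ n ih =>
    simp only [early]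
    have hm1 : Measurable (fun p : ℝ × ℝ × Unit =>
        early (iidK m ν) n (nxt r.1 p, r.2 - p.2.1)) :=
      (measurable_transfer _ (measurable_early (iidK m ν) n)).comp
        ((measurable_const : Measurable (fun _ : ℝ × ℝ × Unit => (r.1, r.2))).prodMk
          measurable_id)
    rw [lintegral_iidK ν r.1 _ hm1]
    calc ∫⁻ p : ℝ × ℝ, early (iidK m ν) n (nxt r.1 (p.1, p.2, ()), r.2 - p.2) ∂ν
        ≤ ∫⁻ p : ℝ × ℝ, (ENNReal.ofReal (Real.exp r.2) * lapP ν ^ n) *
            ENNReal.ofReal (Real.exp (-p.2)) ∂ν := by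
          apply lintegral_mono
          intro p
          refine (ih _).trans (le_of_eq ?_)
          simp only
          rw [sub_eq_add_neg, Real.exp_add, ENNReal.ofReal_mul (Real.exp_pos _).le]
          ring
      _ = (ENNReal.ofReal (Real.exp r.2) * lapP ν ^ n) * lapP ν := by
          rw [lintegral_const_mul]
          · rfl
          · exact (Real.measurable_exp.comp measurable_snd.neg).ennreal_ofReal
      _ = ENNReal.ofReal (Real.exp r.2) * lapP ν ^ (n + 1) := by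
          rw [pow_succ]; ring

lemma early_iid (ν : Measure (ℝ × ℝ)) [IsProbabilityMeasure ν]
    (hν : ∀ᵐ p ∂ν, 0 ≤ p.1 ∧ 0 ≤ p.2) (h0 : ¬ ∀ᵐ p ∂ν, p.2 = 0) (q : St m Unit) (y : ℝ) :
    Tendsto (fun n => early (iidK m ν) n (q, y)) atTop (𝓝 0) := by
  have h1 : Tendsto (fun n : ℕ => lapP ν ^ n) atTop (𝓝 0) :=
    ENNReal.tendsto_pow_atTop_nhds_zero_of_lt_one (lapP_lt_one ν hν h0)
  have h2 : Tendsto (fun n : ℕ => ENNReal.ofReal (Real.exp y) * lapP ν ^ n) atTop (𝓝 0) := by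
    have := ENNReal.Tendsto.const_mul (a := ENNReal.ofReal (Real.exp y)) h1
      (Or.inr ENNReal.ofReal_ne_top)
    simpa using this
  exact tendsto_of_tendsto_of_tendsto_of_le_of_le tendsto_const_nhds h2
    (fun _ => zero_le) (fun n => early_le_lap ν n (q, y))

end Pool.Agent.Y660.CW
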